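import Mathlib

/-!
# Countable weak pi-bases of unit balls of spaces with a 1-unconditional basis
-/

set_option autoImplicit false

open Filter Topology Metric

namespace Pool.Agent.N9helper31.UPi

theorem weak_nhds {X : Type} [NormedAddCommGroup X] [NormedSpace ℝ X] {O : Set (WeakSpace ℝ X)}
    (hO : IsOpen O) {x0 : X} (hx : toWeakSpace ℝ X x0 ∈ O) :
    ∃ (I : Finset (X →L[ℝ] ℝ)) (ε : ℝ), 0 < ε ∧
      ∀ x : X, (∀ F ∈ I, |F x - F x0| < ε) → toWeakSpace ℝ X x ∈ O := by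
  classical
  have h1 : O ∈ 𝓝 (toWeakSpace ℝ X x0) := hO.mem_nhds hx
  have h2 : O ∈ Filter.comap (fun (x : WeakSpace ℝ X) (F : X →L[ℝ] ℝ) => F ((toWeakSpace ℝ X).symm x))
      (𝓝 (fun F : X →L[ℝ] ℝ => F x0)) := by
    have h3 := nhds_induced (fun (x : WeakSpace ℝ X) (F : X →L[ℝ] ℝ) =>
      F ((toWeakSpace ℝ X).symm x)) (toWeakSpace ℝ X x0)
    have h4 : O ∈ @nhds _ (TopologicalSpace.induced (fun (x : WeakSpace ℝ X) (F : X →L[ℝ] ℝ) =>
      F ((toWeakSpace ℝ X).symm x)) Pi.topologicalSpace) (toWeakSpace ℝ X x0) := h1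
    rw [h3] at h4
    exact h4
  rw [Filter.mem_comap] at h2
  obtain ⟨t, ht, hts⟩ := h2
  rw [nhds_pi, Filter.mem_pi] at ht
  obtain ⟨I, hI, r, hr, hsub⟩ := ht
  have h5 : ∀ F : X →L[ℝ] ℝ, ∃ δ : ℝ, 0 < δ ∧ ball (F x0) δ ⊆ r F := fun F =>
    Metric.mem_nhds_iff.1 (hr F)
  choose δ hδ hball using h5
  have h6 : ∃ ε : ℝ, 0 < ε ∧ ∀ F ∈ hI.toFinset, ε ≤ δ F := by
    by_cases hne : hI.toFinset.Nonempty
    · obtain ⟨F0, hF0, hmin⟩ := Finset.exists_min_image hI.toFinset δ hne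
      exact ⟨δ F0, hδ F0, hmin⟩
    · rw [Finset.not_nonempty_iff_eq_empty] at hne
      exact ⟨1, one_pos, by rw [hne]; simp⟩
  obtain ⟨ε, hε, hle⟩ := h6
  refine ⟨hI.toFinset, ε, hε, fun x hx => hts ?_⟩
  refine hsub ?_
  intro F hF
  refine hball F ?_
  rw [mem_ball, Real.dist_eq]
  have hF' : F ∈ hI.toFinset := hI.mem_toFinset.2 hF
  exact (hx F hF').trans_le (hle F hF')

theorem weak_continuous {X : Type} [NormedAddCommGroup X] [NormedSpace ℝ X] (F : X →L[ℝ] ℝ) :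
    Continuous fun x : WeakSpace ℝ X => F ((toWeakSpace ℝ X).symm x) := by
  have h : Continuous fun (x : WeakSpace ℝ X) (F : X →L[ℝ] ℝ) => F ((toWeakSpace ℝ X).symm x) :=
    continuous_induced_dom
  exact (continuous_pi_iff.mp h) F

/-- data of a 1-unconditional basis -/
structure UB (X : Type) [NormedAddCommGroup X] [NormedSpace ℝ X] where
  e : ℕ → X
  c : X → ℕ → ℝ
  has : ∀ x, HasSum (fun n => c x n • e n) x
  uniq : ∀ x (a : ℕ → ℝ), HasSum (fun n => a n • e n) x → a = c x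
  unc : ∀ (s : Finset ℕ) (a ε : ℕ → ℝ), (∀ n, ε n = 1 ∨ ε n = -1) →
          ‖∑ n ∈ s, (ε n * a n) • e n‖ ≤ ‖∑ n ∈ s, a n • e n‖

namespace UB

variable {X : Type} [NormedAddCommGroup X] [NormedSpace ℝ X] (B : UB X)

theorem c_add (x y : X) (n : ℕ) : B.c (x + y) n = B.c x n + B.c y n := by
  have h : HasSum (fun n => (B.c x n + B.c y n) • B.e n) (x + y) := by
    simp_rw [add_smul]
    exact (B.has x).add (B.has y)
  have := B.uniq _ _ h
  exact (congrFun this n).symm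

theorem c_smul (r : ℝ) (x : X) (n : ℕ) : B.c (r • x) n = r * B.c x n := by
  have h : HasSum (fun n => (r * B.c x n) • B.e n) (r • x) := by
    simp_rw [mul_smul]
    exact (B.has x).const_smul r
  have := B.uniq _ _ h
  exact (congrFun this n).symm

/-- restriction decreases the norm -/
theorem sub_le (a : ℕ → ℝ) {s t : Finset ℕ} (h : s ⊆ t) :
    ‖∑ n ∈ s, a n • B.e n‖ ≤ ‖∑ n ∈ t, a n • B.e n‖ := by
  classical
  have h1 := B.unc t a (fun n => if n ∈ s then 1 else -1) (fun n => by by_cases hn : n ∈ s <;> simp [hn])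
  have h2 : ∑ n ∈ t, a n • B.e n + ∑ n ∈ t, ((if n ∈ s then (1 : ℝ) else -1) * a n) • B.e n
      = (2 : ℝ) • ∑ n ∈ s, a n • B.e n := by
    rw [← Finset.sum_add_distrib, Finset.smul_sum, ← Finset.sum_subset h (f := fun n =>
      a n • B.e n + ((if n ∈ s then (1 : ℝ) else -1) * a n) • B.e n)]
    · refine Finset.sum_congr rfl fun n hn => ?_
      rw [if_pos hn, one_mul, two_smul]
    · intro n _ hn
      rw [if_neg hn]
      simp
  have h3 : 2 * ‖∑ n ∈ s, a n • B.e n‖ ≤ 2 * ‖∑ n ∈ t, a n • B.e n‖ := by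
    calc 2 * ‖∑ n ∈ s, a n • B.e n‖ = ‖(2 : ℝ) • ∑ n ∈ s, a n • B.e n‖ := by
          rw [norm_smul]; norm_num
      _ ≤ ‖∑ n ∈ t, a n • B.e n‖ + ‖∑ n ∈ t, ((if n ∈ s then (1 : ℝ) else -1) * a n) • B.e n‖ := by
          rw [← h2]; exact norm_add_le _ _
      _ ≤ 2 * ‖∑ n ∈ t, a n • B.e n‖ := by linarith
  linarith

theorem proj_le (x : X) (s : Finset ℕ) : ‖∑ n ∈ s, B.c x n • B.e n‖ ≤ ‖x‖ := by
  refine ge_of_tendsto ((B.has x).norm) ?_
  filter_upwards [Filter.eventually_ge_atTop s] with t ht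
  exact B.sub_le _ ht

/-- the partial sum projections -/
noncomputable def P (s : Finset ℕ) : X →L[ℝ] X :=
  LinearMap.mkContinuous
    { toFun := fun x => ∑ n ∈ s, B.c x n • B.e n
      map_add' := fun x y => by
        simp_rw [B.c_add, add_smul, Finset.sum_add_distrib]
      map_smul' := fun r x => by
        simp_rw [B.c_smul, mul_smul, RingHom.id_apply, Finset.smul_sum] } 1
    (fun x => by rw [one_mul]; exact B.proj_le x s)

theorem P_apply (s : Finset ℕ) (x : X) : B.P s x = ∑ n ∈ s, B.c x n • B.e n := rfl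

theorem norm_P_le (s : Finset ℕ) (x : X) : ‖B.P s x‖ ≤ ‖x‖ := B.proj_le x s

theorem tendsto_P (x : X) : Tendsto (fun s => B.P s x) atTop (𝓝 x) := B.has x

theorem c_sum (a : ℕ → ℝ) (s : Finset ℕ) (n : ℕ) :
    B.c (∑ m ∈ s, a m • B.e m) n = if n ∈ s then a n else 0 := by
  classical
  have h : HasSum (fun n => (if n ∈ s then a n else 0) • B.e n) (∑ m ∈ s, a m • B.e m) := by
    have h1 : ∑ m ∈ s, a m • B.e m = ∑ m ∈ s, (if m ∈ s then a m else 0) • B.e m :=
      Finset.sum_congr rfl fun m hm => by rw [if_pos hm]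
    rw [h1]
    refine hasSum_sum_of_ne_finset_zero fun m hm => ?_
    rw [if_neg hm, zero_smul]
  exact (congrFun (B.uniq _ _ h) n).symm

theorem c_P (s : Finset ℕ) (x : X) (n : ℕ) : B.c (B.P s x) n = if n ∈ s then B.c x n else 0 :=
  B.c_sum _ _ _

/-- weighted coordinate sums -/
noncomputable def G (I : Finset (X →L[ℝ] ℝ)) (t : Finset ℕ) (x : X) : ℝ :=
  ∑ f ∈ I, ∑ n ∈ t, |B.c x n * f (B.e n)|

theorem G_nonneg (I : Finset (X →L[ℝ] ℝ)) (t : Finset ℕ) (x : X) : 0 ≤ B.G I t x :=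
  Finset.sum_nonneg fun _ _ => Finset.sum_nonneg fun _ _ => abs_nonneg _

theorem G_le (I : Finset (X →L[ℝ] ℝ)) (t : Finset ℕ) (x : X) :
    B.G I t x ≤ (∑ f ∈ I, ‖f‖) * ‖x‖ := by
  rw [G, Finset.sum_mul]
  refine Finset.sum_le_sum fun f _ => ?_
  have h1 : ∑ n ∈ t, |B.c x n * f (B.e n)| =
      f (∑ n ∈ t, ((if 0 ≤ B.c x n * f (B.e n) then (1:ℝ) else -1) * B.c x n) • B.e n) := by
    rw [map_sum]
    refine Finset.sum_congr rfl fun n _ => ?_
    rw [map_smul, smul_eq_mul, mul_assoc]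
    split_ifs with h
    · rw [one_mul, abs_of_nonneg h]
    · rw [abs_of_neg (not_le.1 h)]; ring
  rw [h1]
  refine (le_abs_self _).trans ((f.le_opNorm _).trans ?_)
  refine mul_le_mul_of_nonneg_left ?_ (norm_nonneg _)
  refine (B.unc t (B.c x) _ (fun n => by split_ifs <;> simp)).trans (B.proj_le x t)

theorem G_add_le (I : Finset (X →L[ℝ] ℝ)) (t : Finset ℕ) (x y : X) :
    B.G I t (x + y) ≤ B.G I t x + B.G I t y := by
  rw [G, G, G, ← Finset.sum_add_distrib]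
  refine Finset.sum_le_sum fun f _ => ?_
  rw [← Finset.sum_add_distrib]
  refine Finset.sum_le_sum fun n _ => ?_
  rw [B.c_add, add_mul]
  exact abs_add_le _ _

theorem G_smul (I : Finset (X →L[ℝ] ℝ)) (t : Finset ℕ) (r : ℝ) (hr : 0 ≤ r) (x : X) :
    B.G I t (r • x) = r * B.G I t x := by
  rw [G, G, Finset.mul_sum]
  refine Finset.sum_congr rfl fun f _ => ?_
  rw [Finset.mul_sum]
  refine Finset.sum_congr rfl fun n _ => ?_
  rw [B.c_smul, mul_assoc, abs_mul, abs_of_nonneg hr]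

theorem G_neg (I : Finset (X →L[ℝ] ℝ)) (t : Finset ℕ) (x : X) :
    B.G I t (-x) = B.G I t x := by
  rw [G, G]
  refine Finset.sum_congr rfl fun f _ => ?_
  refine Finset.sum_congr rfl fun n _ => ?_
  rw [← neg_one_smul ℝ x, B.c_smul, neg_one_mul, neg_mul, abs_neg]

theorem G_union (I : Finset (X →L[ℝ] ℝ)) {s t : Finset ℕ} (h : s ⊆ t) (x : X) :
    B.G I t x = B.G I s x + B.G I (t \ s) x := by
  classical
  rw [G, G, G, ← Finset.sum_add_distrib]
  refine Finset.sum_congr rfl fun f _ => ?_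
  rw [add_comm, Finset.sum_sdiff h]

theorem G_congr (I : Finset (X →L[ℝ] ℝ)) (t : Finset ℕ) (x y : X)
    (h : ∀ n ∈ t, B.c x n = B.c y n) : B.G I t x = B.G I t y := by
  rw [G, G]
  refine Finset.sum_congr rfl fun f _ => ?_
  refine Finset.sum_congr rfl fun n hn => ?_
  rw [h n hn]

end UB

end Pool.Agent.N9helper31.UPi
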