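import Pool.Agent.N9helper31.UPi

/-!
# Countable weak pi-bases of unit balls of spaces with a 1-unconditional basis: the key lemma
-/

set_option autoImplicit false

open Filter Topology Metric

namespace Pool.Agent.N9helper31.UPi

namespace UB

variable {X : Type} [NormedAddCommGroup X] [NormedSpace ℝ X] (B : UB X)

theorem G_sub_ge (I : Finset (X →L[ℝ] ℝ)) (t : Finset ℕ) (x y : X) :
    B.G I t x - B.G I t y ≤ B.G I t (x + y) := by
  have h := B.G_add_le I t (x + y) (-y)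
  rw [B.G_neg, add_neg_cancel_right] at h
  linarith

theorem G_mono (I : Finset (X →L[ℝ] ℝ)) {s t : Finset ℕ} (h : s ⊆ t) (x : X) :
    B.G I s x ≤ B.G I t x := by
  rw [B.G_union I h]
  have := B.G_nonneg I (t \ s) x
  linarith

theorem abs_le_G (I : Finset (X →L[ℝ] ℝ)) {f : X →L[ℝ] ℝ} (hf : f ∈ I) (t : Finset ℕ) (x : X) :
    |f (B.P t x)| ≤ B.G I t x := by
  have h1 : |f (B.P t x)| ≤ ∑ n ∈ t, |B.c x n * f (B.e n)| := by
    rw [P_apply, map_sum]
    refine (Finset.abs_sum_le_sum_abs _ _).trans (le_of_eq ?_)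
    refine Finset.sum_congr rfl fun n _ => ?_
    rw [map_smul, smul_eq_mul]
  refine h1.trans ?_
  exact Finset.single_le_sum (f := fun f : X →L[ℝ] ℝ => ∑ n ∈ t, |B.c x n * f (B.e n)|)
    (fun _ _ => Finset.sum_nonneg fun _ _ => abs_nonneg _) hf

/-- one sign change -/
theorem norm_P_add_le {t t' : Finset ℕ} (h : t ⊆ t') (y : X) (σ : ℝ) (hσ : σ = 1 ∨ σ = -1) :
    ‖B.P t y + σ • B.P (t' \ t) y‖ ≤ ‖y‖ := by
  classical
  have h1 : B.P t y + σ • B.P (t' \ t) y =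
      ∑ n ∈ t', ((if n ∈ t then (1:ℝ) else σ) * B.c y n) • B.e n := by
    rw [P_apply, P_apply, ← Finset.sum_sdiff h, add_comm, Finset.smul_sum]
    congr 1
    · refine Finset.sum_congr rfl fun n hn => ?_
      rw [if_neg (Finset.mem_sdiff.1 hn).2, mul_smul]
    · refine Finset.sum_congr rfl fun n hn => ?_
      rw [if_pos hn, one_mul]
  rw [h1]
  refine (B.unc t' (B.c y) _ fun n => ?_).trans (B.proj_le y t')
  split_ifs
  · exact Or.inl rfl
  · exact hσ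

/-- the recursion -/
theorem rec_step (I : Finset (X →L[ℝ] ℝ)) (R : ℝ) (hR : ∑ f ∈ I, ‖f‖ ≤ R) (x : X)
    (t0 : Finset ℕ) (κ a : ℝ)
    (hx : ∀ t, t0 ⊆ t → ‖B.P t x - x‖ ≤ κ)
    (H : ∀ t, t0 ⊆ t → ∃ (y : X) (t' : Finset ℕ), ‖y‖ ≤ 1 ∧ ‖B.P t (y - x)‖ ≤ κ ∧ t ⊆ t' ∧
      a ≤ B.G I (t' \ t) y) (k : ℕ) :
    ∃ (t : Finset ℕ) (w u : X), t0 ⊆ t ∧ ‖w + u‖ ≤ k ∧ ‖w - (k : ℝ) • x‖ ≤ k * (2 * κ) ∧
      ∑ f ∈ I, (f u) ^ 2 ≤ k * R ^ 2 ∧ (∀ n ∈ t0, B.c u n = 0) ∧ (∀ n, n ∉ t → B.c u n = 0) ∧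
      k * a ≤ B.G I (t \ t0) u := by
  classical
  have hR0 : 0 ≤ R := (Finset.sum_nonneg fun _ _ => norm_nonneg _).trans hR
  have c0 : ∀ n, B.c (0 : X) n = 0 := by
    intro n
    have := B.c_smul 0 0 n
    rwa [zero_smul, zero_mul] at this
  induction k with
  | zero =>
    refine ⟨t0, 0, 0, subset_rfl, by simp, by simp, by simp, fun n _ => c0 n, fun n _ => c0 n, ?_⟩
    simpa using B.G_nonneg I _ 0
  | succ k ih =>
    obtain ⟨t, w, u, ht, h1, h2, h3, h4, h5, h6⟩ := ih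
    obtain ⟨y, t', hy, hyx, htt', hG⟩ := H t ht
    obtain ⟨σ, hσ, hσ2⟩ : ∃ σ : ℝ, (σ = 1 ∨ σ = -1) ∧
        σ * ∑ f ∈ I, f u * f (B.P (t' \ t) y) ≤ 0 := by
      rcases le_total 0 (∑ f ∈ I, f u * f (B.P (t' \ t) y)) with h | h
      · exact ⟨-1, Or.inr rfl, by linarith⟩
      · exact ⟨1, Or.inl rfl, by linarith⟩
    have hσs : σ ^ 2 = 1 := by rcases hσ with h | h <;> rw [h] <;> norm_num
    set z := B.P (t' \ t) y with hz
    have cz : ∀ n, B.c (σ • z) n = if n ∈ t' \ t then σ * B.c y n else 0 := by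
      intro n
      rw [B.c_smul, hz, B.c_P]
      split_ifs <;> simp
    refine ⟨t', w + B.P t y, u + σ • z, ht.trans htt', ?_, ?_, ?_, ?_, ?_, ?_⟩
    · have e : w + B.P t y + (u + σ • z) = (w + u) + (B.P t y + σ • z) := by abel
      rw [e]
      refine (norm_add_le _ _).trans ?_
      have := B.norm_P_add_le htt' y σ hσ
      push_cast
      linarith
    · have e : w + B.P t y - ((k + 1 : ℕ) : ℝ) • x =
          (w - (k : ℝ) • x) + (B.P t (y - x) + (B.P t x - x)) := by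
        rw [map_sub]
        push_cast
        rw [add_smul, one_smul]
        abel
      rw [e]
      refine (norm_add_le _ _).trans ?_
      have h7 := norm_add_le (B.P t (y - x)) (B.P t x - x)
      have h8 := hx t ht
      push_cast
      linarith
    · have h7 : ∑ f ∈ I, (f (u + σ • z)) ^ 2 =
          ∑ f ∈ I, (f u) ^ 2 + 2 * (σ * ∑ f ∈ I, f u * f z) + ∑ f ∈ I, (f z) ^ 2 := by
        rw [Finset.mul_sum, Finset.mul_sum, ← Finset.sum_add_distrib, ← Finset.sum_add_distrib]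
        refine Finset.sum_congr rfl fun f _ => ?_
        rw [map_add, map_smul, smul_eq_mul]
        linear_combination (f z) ^ 2 * hσs
      have h8 : ∑ f ∈ I, (f z) ^ 2 ≤ R ^ 2 := by
        have hz1 : ‖z‖ ≤ 1 := (B.norm_P_le _ _).trans hy
        have h9 : ∀ f ∈ I, (f z) ^ 2 ≤ R * ‖f‖ := by
          intro f hf
          have h10 : |f z| ≤ ‖f‖ := by
            refine (f.le_opNorm z).trans ?_
            exact mul_le_of_le_one_right (norm_nonneg _) hz1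
          have h11 : ‖f‖ ≤ R := (Finset.single_le_sum (f := fun f : X →L[ℝ] ℝ => ‖f‖)
            (fun _ _ => norm_nonneg _) hf).trans hR
          rw [← sq_abs]
          nlinarith [abs_nonneg (f z), norm_nonneg f]
        calc ∑ f ∈ I, (f z) ^ 2 ≤ ∑ f ∈ I, R * ‖f‖ := Finset.sum_le_sum h9
          _ = R * ∑ f ∈ I, ‖f‖ := by rw [Finset.mul_sum]
          _ ≤ R * R := mul_le_mul_of_nonneg_left hR hR0
          _ = R ^ 2 := by ring
      rw [h7]
      push_cast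
      linarith
    · intro n hn
      rw [B.c_add, h4 n hn, cz, if_neg, add_zero]
      intro hn'
      exact (Finset.mem_sdiff.1 hn').2 (ht hn)
    · intro n hn
      rw [B.c_add, h5 n (fun h => hn (htt' h)), cz, if_neg, add_zero]
      intro hn'
      exact hn (Finset.mem_sdiff.1 hn').1
    · have e1 : t \ t0 ⊆ t' \ t0 := Finset.sdiff_subset_sdiff htt' subset_rfl
      have e2 : (t' \ t0) \ (t \ t0) = t' \ t := by
        ext n
        simp only [Finset.mem_sdiff, not_and, not_not]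
        constructor
        · rintro ⟨⟨h1, h2⟩, h3⟩
          exact ⟨h1, fun h => h2 (h3 h)⟩
        · rintro ⟨h1, h2⟩
          exact ⟨⟨h1, fun h => h2 (ht h)⟩, fun h => absurd h h2⟩
      rw [B.G_union I e1, e2]
      have h7 : B.G I (t \ t0) (u + σ • z) = B.G I (t \ t0) u := by
        refine B.G_congr I _ _ _ fun n hn => ?_
        rw [B.c_add, cz, if_neg, add_zero]
        intro hn'
        exact (Finset.mem_sdiff.1 hn').2 (Finset.mem_sdiff.1 hn).1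
      have h8 : B.G I (t' \ t) (u + σ • z) = B.G I (t' \ t) y := by
        have h9 : B.G I (t' \ t) (u + σ • z) = B.G I (t' \ t) (σ • y) := by
          refine B.G_congr I _ _ _ fun n hn => ?_
          rw [B.c_add, cz, if_pos hn, h5 n (Finset.mem_sdiff.1 hn).2, zero_add, B.c_smul]
        rw [h9]
        rcases hσ with h | h
        · rw [h, one_smul]
        · rw [h, neg_one_smul, B.G_neg]
      rw [h7, h8]
      push_cast
      linarith

/-- the key lemma -/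
theorem key (I : Finset (X →L[ℝ] ℝ)) (x0 : X) (hx0 : ‖x0‖ ≤ 1) (δ : ℝ) (hδ : 0 < δ) :
    ∃ (x : X) (t : Finset ℕ) (ε : ℝ), 0 < ε ∧ ‖x‖ ≤ 1 ∧
      ∀ y : X, ‖y‖ ≤ 1 → ‖B.P t (y - x)‖ < ε → ∀ f ∈ I, |f y - f x0| < δ := by
  classical
  by_contra hcon
  push Not at hcon
  obtain ⟨R, hR⟩ : ∃ R : ℝ, R = (∑ f ∈ I, ‖f‖) + 1 := ⟨_, rfl⟩
  have hS0 : 0 ≤ ∑ f ∈ I, ‖f‖ := Finset.sum_nonneg fun _ _ => norm_nonneg _
  have hR0 : 0 < R := by linarith
  have hRs : ∑ f ∈ I, ‖f‖ ≤ R := by linarith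
  have hfR : ∀ f ∈ I, ‖f‖ ≤ R := fun f hf =>
    (Finset.single_le_sum (f := fun f : X →L[ℝ] ℝ => ‖f‖) (fun _ _ => norm_nonneg _) hf).trans hRs
  have hGR : ∀ t x, B.G I t x ≤ R * ‖x‖ := fun t x =>
    (B.G_le I t x).trans (mul_le_mul_of_nonneg_right hRs (norm_nonneg _))
  set S : Set ℝ := {r | ∃ (x : X) (t : Finset ℕ), ‖x‖ ≤ 1 ∧ (∀ f ∈ I, |f x - f x0| < δ / 2) ∧
    r = B.G I t x} with hS
  have hSb : BddAbove S := by
    refine ⟨R, ?_⟩
    rintro r ⟨x, t, hx, -, rfl⟩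
    exact (hGR t x).trans (mul_le_of_le_one_right hR0.le hx)
  have hSn : S.Nonempty := ⟨_, x0, ∅, hx0, fun f _ => by simpa using half_pos hδ, rfl⟩
  obtain ⟨r, ⟨x, s, hx1, hxW, rfl⟩, hr⟩ := exists_lt_of_lt_csSup hSn
    (show sSup S - δ / 16 < sSup S by linarith)
  -- the weak gap
  obtain ⟨ρ, hρ, hρf⟩ : ∃ ρ : ℝ, 0 < ρ ∧ ∀ f ∈ I, |f x - f x0| + ρ ≤ δ / 2 := by
    by_cases hne : I.Nonempty
    · obtain ⟨F0, hF0, hmin⟩ := Finset.exists_max_image I (fun f => |f x - f x0|) hne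
      refine ⟨δ / 2 - |F0 x - F0 x0|, by linarith [hxW F0 hF0], fun f hf => ?_⟩
      have := hmin f hf
      linarith
    · rw [Finset.not_nonempty_iff_eq_empty] at hne
      exact ⟨1, one_pos, by rw [hne]; simp⟩
  obtain ⟨κ, hκ0, hκ1, hκ2⟩ : ∃ κ : ℝ, 0 < κ ∧ R * κ ≤ δ / 64 ∧ R * (2 * κ) ≤ ρ / 4 := by
    refine ⟨min (δ / 64) (ρ / 8) / R, by positivity, ?_, ?_⟩
    · rw [mul_div_cancel₀ _ hR0.ne']
      exact min_le_left _ _
    · have : R * (2 * (min (δ / 64) (ρ / 8) / R)) = 2 * min (δ / 64) (ρ / 8) := by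
        field_simp
      rw [this]
      have := min_le_right (δ / 64) (ρ / 8)
      linarith
  obtain ⟨s1, hs1⟩ := Metric.tendsto_atTop.1 (B.tendsto_P x) κ hκ0
  have hx' : ∀ t, s ∪ s1 ⊆ t → ‖B.P t x - x‖ ≤ κ := by
    intro t ht
    have := hs1 t (Finset.union_subset_right ht)
    rw [dist_eq_norm] at this
    exact this.le
  -- the hypothesis of the recursion
  have H : ∀ t, s ∪ s1 ⊆ t → ∃ (y : X) (t' : Finset ℕ), ‖y‖ ≤ 1 ∧ ‖B.P t (y - x)‖ ≤ κ ∧ t ⊆ t' ∧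
      δ / 4 ≤ B.G I (t' \ t) y := by
    intro t ht
    obtain ⟨y, hy1, hy2, f, hf, hfy⟩ := hcon x t κ hκ0 hx1
    have h1 : δ / 2 ≤ |f (y - x)| := by
      have e : f y - f x0 = f (y - x) + (f x - f x0) := by rw [map_sub]; ring
      rw [e] at hfy
      have := abs_add_le (f (y - x)) (f x - f x0)
      have := hxW f hf
      linarith
    have h2 : δ / 2 - δ / 32 ≤ |f (y - B.P t y)| := by
      have e : f (y - x) = f (B.P t (y - x)) + f (B.P t x - x) + f (y - B.P t y) := by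
        rw [← map_add, ← map_add]
        congr 1
        rw [map_sub]
        abel
      rw [e] at h1
      have h3 := abs_add_le (f (B.P t (y - x)) + f (B.P t x - x)) (f (y - B.P t y))
      have h4 := abs_add_le (f (B.P t (y - x))) (f (B.P t x - x))
      have h5 : |f (B.P t (y - x))| ≤ R * κ := (f.le_opNorm _).trans
        (mul_le_mul (hfR f hf) hy2.le (norm_nonneg _) hR0.le)
      have h6 : |f (B.P t x - x)| ≤ R * κ := (f.le_opNorm _).trans
        (mul_le_mul (hfR f hf) (hx' t ht) (norm_nonneg _) hR0.le)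
      linarith
    have h3 : Tendsto (fun t' => |f (B.P t' y - B.P t y)|) atTop (𝓝 |f (y - B.P t y)|) := by
      have h4 : Continuous fun z => |f (z - B.P t y)| := by fun_prop
      exact (h4.tendsto y).comp (B.tendsto_P y)
    have h4 : ∀ᶠ t' in atTop, δ / 4 < |f (B.P t' y - B.P t y)| :=
      h3.eventually_const_lt (by linarith)
    obtain ⟨t', ht', htt'⟩ := (h4.and (Filter.eventually_ge_atTop t)).exists
    refine ⟨y, t', hy1, hy2.le, htt', ?_⟩
    have h5 : B.P t' y - B.P t y = B.P (t' \ t) y := by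
      rw [P_apply, P_apply, P_apply, ← Finset.sum_sdiff htt', add_sub_cancel_right]
    rw [h5] at ht'
    exact ht'.le.trans (B.abs_le_G I hf _ _)
  obtain ⟨k, hk⟩ : ∃ k : ℕ, 0 < k ∧ (4 * R / ρ) ^ 2 ≤ k := by
    obtain ⟨k, hk⟩ := exists_nat_ge ((4 * R / ρ) ^ 2)
    exact ⟨k + 1, k.succ_pos, by push_cast; linarith⟩
  have hk0 : (0 : ℝ) < k := by exact_mod_cast hk.1
  obtain ⟨t, w, u, ht, h1, h2, h3, h4, h5, h6⟩ :=
    B.rec_step I R hRs x (s ∪ s1) κ (δ / 4) hx' H k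
  -- the new point
  have hki : (k : ℝ)⁻¹ * k = 1 := inv_mul_cancel₀ hk0.ne'
  have hv1 : ‖(k : ℝ)⁻¹ • (w + u)‖ ≤ 1 := by
    rw [norm_smul, norm_inv, Real.norm_of_nonneg hk0.le]
    calc (k : ℝ)⁻¹ * ‖w + u‖ ≤ (k : ℝ)⁻¹ * k := mul_le_mul_of_nonneg_left h1 (by positivity)
      _ = 1 := hki
  have hw : ‖(k : ℝ)⁻¹ • w - x‖ ≤ 2 * κ := by
    have e : (k : ℝ)⁻¹ • w - x = (k : ℝ)⁻¹ • (w - (k : ℝ) • x) := by
      rw [smul_sub, smul_smul, hki, one_smul]
    rw [e, norm_smul, norm_inv, Real.norm_of_nonneg hk0.le]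
    calc (k : ℝ)⁻¹ * ‖w - (k : ℝ) • x‖ ≤ (k : ℝ)⁻¹ * (k * (2 * κ)) :=
          mul_le_mul_of_nonneg_left h2 (by positivity)
      _ = 2 * κ := by rw [← mul_assoc, hki, one_mul]
  have hfu : ∀ f ∈ I, |(k : ℝ)⁻¹ * f u| ≤ ρ / 4 := by
    intro f hf
    have h7 : (f u) ^ 2 ≤ k * R ^ 2 :=
      (Finset.single_le_sum (f := fun f : X →L[ℝ] ℝ => (f u) ^ 2) (fun _ _ => sq_nonneg _) hf).trans h3
    have h8 : R ^ 2 ≤ k * (ρ / 4) ^ 2 := by
      have : (4 * R / ρ) ^ 2 * (ρ / 4) ^ 2 = R ^ 2 := by field_simp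
      rw [← this]
      exact mul_le_mul_of_nonneg_right hk.2 (sq_nonneg _)
    apply abs_le_of_sq_le_sq _ (by positivity)
    calc ((k : ℝ)⁻¹ * f u) ^ 2 = ((k : ℝ)⁻¹) ^ 2 * (f u) ^ 2 := by ring
      _ ≤ ((k : ℝ)⁻¹) ^ 2 * (k * (k * (ρ / 4) ^ 2)) :=
        mul_le_mul_of_nonneg_left (h7.trans (mul_le_mul_of_nonneg_left h8 hk0.le)) (by positivity)
      _ = ((k : ℝ)⁻¹ * k) ^ 2 * (ρ / 4) ^ 2 := by ring
      _ = (ρ / 4) ^ 2 := by rw [hki]; ring
  have hvW : ∀ f ∈ I, |f ((k : ℝ)⁻¹ • (w + u)) - f x0| < δ / 2 := by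
    intro f hf
    have e : f ((k : ℝ)⁻¹ • (w + u)) - f x0 =
        f ((k : ℝ)⁻¹ • w - x) + (k : ℝ)⁻¹ * f u + (f x - f x0) := by
      rw [smul_add, map_add, map_sub, map_smul f (k : ℝ)⁻¹ u, smul_eq_mul]
      ring
    rw [e]
    have h7 := abs_add_le (f ((k : ℝ)⁻¹ • w - x) + (k : ℝ)⁻¹ * f u) (f x - f x0)
    have h8 := abs_add_le (f ((k : ℝ)⁻¹ • w - x)) ((k : ℝ)⁻¹ * f u)
    have h9 : |f ((k : ℝ)⁻¹ • w - x)| ≤ R * (2 * κ) := (f.le_opNorm _).trans
        (mul_le_mul (hfR f hf) hw (norm_nonneg _) hR0.le)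
    have h10 := hfu f hf
    have h11 := hρf f hf
    linarith
  have hmem : B.G I t ((k : ℝ)⁻¹ • (w + u)) ≤ sSup S := le_csSup hSb ⟨_, t, hv1, hvW, rfl⟩
  -- the lower estimate
  have g1 : B.G I t (x + (k : ℝ)⁻¹ • u) - R * (2 * κ) ≤ B.G I t ((k : ℝ)⁻¹ • (w + u)) := by
    have e : (k : ℝ)⁻¹ • (w + u) = (x + (k : ℝ)⁻¹ • u) + ((k : ℝ)⁻¹ • w - x) := by
      rw [smul_add]; abel
    rw [e]
    have h7 := B.G_sub_ge I t (x + (k : ℝ)⁻¹ • u) ((k : ℝ)⁻¹ • w - x)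
    have h8 : B.G I t ((k : ℝ)⁻¹ • w - x) ≤ R * (2 * κ) :=
      (hGR _ _).trans (mul_le_mul_of_nonneg_left hw hR0.le)
    linarith
  have g2 : B.G I (s ∪ s1) (x + (k : ℝ)⁻¹ • u) = B.G I (s ∪ s1) x := by
    refine B.G_congr I _ _ _ fun n hn => ?_
    rw [B.c_add, B.c_smul, h4 n hn, mul_zero, add_zero]
  have g3 : B.G I s x ≤ B.G I (s ∪ s1) x := B.G_mono I Finset.subset_union_left x
  have g4 : B.G I (t \ (s ∪ s1)) x ≤ R * κ := by
    have h7 : B.G I (t \ (s ∪ s1)) x = B.G I (t \ (s ∪ s1)) (x - B.P (s ∪ s1) x) := by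
      refine B.G_congr I _ _ _ fun n hn => ?_
      rw [sub_eq_add_neg, B.c_add, ← neg_one_smul ℝ (B.P _ x), B.c_smul, B.c_P,
        if_neg (Finset.mem_sdiff.1 hn).2, mul_zero, add_zero]
    rw [h7]
    refine (hGR _ _).trans (mul_le_mul_of_nonneg_left ?_ hR0.le)
    rw [norm_sub_rev]
    exact hx' _ subset_rfl
  have g5 : δ / 4 - R * κ ≤ B.G I (t \ (s ∪ s1)) (x + (k : ℝ)⁻¹ • u) := by
    have h7 := B.G_sub_ge I (t \ (s ∪ s1)) ((k : ℝ)⁻¹ • u) x
    rw [B.G_smul I _ _ (by positivity), add_comm ((k : ℝ)⁻¹ • u) x] at h7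
    have h8 : δ / 4 ≤ (k : ℝ)⁻¹ * B.G I (t \ (s ∪ s1)) u := by
      calc δ / 4 = ((k : ℝ)⁻¹ * k) * (δ / 4) := by rw [hki, one_mul]
        _ = (k : ℝ)⁻¹ * (k * (δ / 4)) := by ring
        _ ≤ _ := mul_le_mul_of_nonneg_left h6 (by positivity)
    linarith
  have g6 := B.G_union I ht (x + (k : ℝ)⁻¹ • u)
  linarith

end UB

/-- The final statement. -/
theorem main (X : Type) [NormedAddCommGroup X] [NormedSpace ℝ X] (B : UB X) :
    ∃ U : ℕ → Set (WeakSpace ℝ X),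
        (∀ n, IsOpen (U n) ∧
            (U n ∩ (toWeakSpace ℝ X) '' Metric.closedBall (0 : X) 1).Nonempty) ∧
        ∀ V : Set (WeakSpace ℝ X), IsOpen V →
          (V ∩ (toWeakSpace ℝ X) '' Metric.closedBall (0 : X) 1).Nonempty →
            ∃ n, U n ∩ (toWeakSpace ℝ X) '' Metric.closedBall (0 : X) 1 ⊆ V := by
  classical
  -- boxes
  let box : Finset ℕ × (ℕ →₀ ℚ) × ℕ → Set (WeakSpace ℝ X) := fun i =>
    {y | ‖B.P i.1 ((toWeakSpace ℝ X).symm y) - ∑ n ∈ i.1, ((i.2.1 n : ℚ) : ℝ) • B.e n‖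
      < 1 / ((i.2.2 : ℝ) + 1)}
  have hbox : ∀ i, IsOpen (box i) := by
    intro i
    refine isOpen_lt ?_ continuous_const
    refine (Continuous.sub ?_ continuous_const).norm
    simp_rw [UB.P_apply]
    refine continuous_finsetSum _ fun n _ => ?_
    refine Continuous.smul ?_ continuous_const
    -- the coordinate functional
    have h1 : ∀ x, |B.c x n| * ‖B.e n‖ ≤ ‖x‖ := by
      intro x
      have := B.proj_le x {n}
      rwa [Finset.sum_singleton, norm_smul, Real.norm_eq_abs] at this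
    have h2 : 0 < ‖B.e n‖ := by
      rw [norm_pos_iff]
      intro h0
      have h3 := B.uniq 0 (fun m => if m = n then 1 else 0) (by
        have : (fun m => (if m = n then (1:ℝ) else 0) • B.e m) = fun _ => 0 := by
          funext m
          by_cases hm : m = n
          · rw [hm, h0, smul_zero]
          · rw [if_neg hm, zero_smul]
        rw [this]
        exact hasSum_zero)
      have h4 := B.uniq 0 (fun _ => 0) (by simp)
      have h5 := congrFun (h3.trans h4.symm) n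
      simp at h5
    let F : X →L[ℝ] ℝ := LinearMap.mkContinuous
      { toFun := fun x => B.c x n
        map_add' := fun x y => B.c_add x y n
        map_smul' := fun r x => by rw [B.c_smul]; rfl } (‖B.e n‖⁻¹)
      (fun x => by
        rw [inv_mul_eq_div, le_div_iff₀ h2]
        exact h1 x)
    exact weak_continuous F
  let J : Set (Finset ℕ × (ℕ →₀ ℚ) × ℕ) :=
    {i | (box i ∩ (toWeakSpace ℝ X) '' Metric.closedBall (0 : X) 1).Nonempty}
  have hJ : J.Nonempty := by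
    refine ⟨(∅, 0, 0), toWeakSpace ℝ X 0, ?_, ⟨0, by simp, rfl⟩⟩
    simp [box, UB.P_apply]
  obtain ⟨g, hg⟩ := (Set.to_countable J).exists_eq_range hJ
  refine ⟨fun n => box (g n), fun n => ⟨hbox _, ?_⟩, ?_⟩
  · have : g n ∈ J := by rw [hg]; exact ⟨n, rfl⟩
    exact this
  · rintro V hV ⟨_, hxV, ⟨x0, hx0, rfl⟩⟩
    rw [mem_closedBall, dist_zero_right] at hx0
    obtain ⟨I, δ, hδ, hI⟩ := weak_nhds hV hxV
    obtain ⟨x, t, ε, hε, hx1, hkey⟩ := B.key I x0 hx0 δ hδ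
    obtain ⟨k, hk⟩ := exists_nat_one_div_lt (half_pos hε)
    -- rational approximation
    have hap : ∃ q : ℕ →₀ ℚ, ‖B.P t x - ∑ n ∈ t, ((q n : ℚ) : ℝ) • B.e n‖ < 1 / ((k : ℝ) + 1) := by
      have hk1 : (0 : ℝ) < 1 / ((k : ℝ) + 1) := by positivity
      have h1 : ∃ q : ℕ → ℚ, ‖B.P t x - ∑ n ∈ t, ((q n : ℚ) : ℝ) • B.e n‖ < 1 / ((k : ℝ) + 1) := by
        have hc : Continuous fun a : ℕ → ℝ => ‖B.P t x - ∑ n ∈ t, a n • B.e n‖ := by
          refine (Continuous.sub continuous_const ?_).norm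
          exact continuous_finsetSum _ fun n _ => (continuous_apply n).smul continuous_const
        have ho : IsOpen {a : ℕ → ℝ | ‖B.P t x - ∑ n ∈ t, a n • B.e n‖ < 1 / ((k : ℝ) + 1)} :=
          isOpen_lt hc continuous_const
        have hd : DenseRange fun q : ℕ → ℚ => fun n => ((q n : ℚ) : ℝ) :=
          DenseRange.piMap fun _ => Rat.denseRange_cast
        obtain ⟨q, hq⟩ := hd.exists_mem_open ho ⟨B.c x, by
          rw [Set.mem_ofPred_eq, UB.P_apply, sub_self, norm_zero]; exact hk1⟩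
        exact ⟨q, hq⟩
      obtain ⟨q, hq⟩ := h1
      refine ⟨Finsupp.onFinset t (fun n => if n ∈ t then q n else 0) (fun n hn => ?_), ?_⟩
      · by_contra h
        exact hn (if_neg h)
      · convert hq using 4 with n hn
        simp only [Finsupp.onFinset_apply]
        rw [if_pos hn]
    obtain ⟨q, hq⟩ := hap
    have hmem : (t, q, k) ∈ J := by
      refine ⟨toWeakSpace ℝ X x, ?_, ⟨x, by rwa [mem_closedBall, dist_zero_right], rfl⟩⟩
      simpa [box] using hq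
    rw [hg] at hmem
    obtain ⟨n, hn⟩ := hmem
    refine ⟨n, ?_⟩
    rintro _ ⟨hy, ⟨y, hy1, rfl⟩⟩
    rw [mem_closedBall, dist_zero_right] at hy1
    change (toWeakSpace ℝ X) y ∈ box (g n) at hy
    rw [hn] at hy
    have hy' : ‖B.P t y - ∑ n ∈ t, ((q n : ℚ) : ℝ) • B.e n‖ < 1 / ((k : ℝ) + 1) := by
      simpa [box] using hy
    refine hI y (hkey y hy1 ?_)
    rw [map_sub]
    have e : B.P t y - B.P t x = (B.P t y - ∑ n ∈ t, ((q n : ℚ) : ℝ) • B.e n)
      - (B.P t x - ∑ n ∈ t, ((q n : ℚ) : ℝ) • B.e n) := by abel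
    rw [e]
    refine (norm_sub_le _ _).trans_lt ?_
    linarith

end Pool.Agent.N9helper31.UPi
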